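import Pool.Agent.H525.EX.Stm6

/-! EX/BDU (for helper525): consequences of the exact formula, second family. -/

set_option autoImplicit false

namespace Pool.Agent.H118.EX

open Finset
open Pool.Agent.H525.EX
open scoped Classical

theorem bdu_J_abs (a : ℤ) (b : ℕ) : |jacobiSym a b| ≤ 1 := by
  rcases jacobiSym.trichotomy a b with h | h | h <;> rw [h] <;> simp

theorem bdu_abs_J_mul (a : ℤ) (b : ℕ) {x : ℤ} (hx : 0 ≤ x) : |jacobiSym a b * x| ≤ x := by
  rw [abs_mul, abs_of_nonneg hx]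
  exact mul_le_of_le_one_left hx (bdu_J_abs a b)

theorem bdu_J_pow (a : ℤ) {b : ℕ} (hb : Odd b) : jacobiSym a b ^ b = jacobiSym a b := by
  rcases jacobiSym.trichotomy a b with h | h | h
  · rw [h]
    exact zero_pow (by obtain ⟨k, hk⟩ := hb; omega)
  · rw [h, one_pow]
  · rw [h, hb.neg_one_pow]

/-- the exponents on the left -/
theorem bdu_expL {M f d : ℕ} (hM0 : 0 < M) (hf : f ∣ M) (h2 : f ≠ M) (hd : d ∣ M / f) :
    f + f * ((d - 1) * (M / f / d - 1) / 2) ≤ 2 * M / 3 := by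
  obtain ⟨N, hN⟩ := hf
  have hf0 : 0 < f := by
    rcases Nat.eq_zero_or_pos f with h | h
    · rw [h, zero_mul] at hN; omega
    · exact h
  have hq : M / f = N := by
    rw [hN]
    exact Nat.mul_div_cancel_left N hf0
  rw [hq] at hd ⊢
  have hN1 : N ≠ 1 := by
    rintro rfl
    rw [mul_one] at hN
    exact h2 hN.symm
  have hN0 : N ≠ 0 := by
    rintro rfl
    omega
  obtain ⟨e, he⟩ := hd
  have hd0 : 0 < d := by
    rcases Nat.eq_zero_or_pos d with h | h
    · rw [h, zero_mul] at he; omega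
    · exact h
  have he0 : 0 < e := by
    rcases Nat.eq_zero_or_pos e with h | h
    · rw [h, mul_zero] at he; omega
    · exact h
  have hq2 : N / d = e := by
    rw [he]
    exact Nat.mul_div_cancel_left e hd0
  rw [hq2]
  obtain ⟨x, rfl⟩ : ∃ x, d = x + 1 := ⟨d - 1, by omega⟩
  obtain ⟨y, rfl⟩ : ∃ y, e = y + 1 := ⟨e - 1, by omega⟩
  rw [Nat.add_sub_cancel, Nat.add_sub_cancel]
  have h5 : N = x * y + x + y + 1 := by rw [he]; ring
  have h6 : 1 ≤ x + y := by
    by_contra h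
    have hx : x = 0 := by omega
    have hy : y = 0 := by omega
    rw [hx, hy] at h5
    exact hN1 h5
  have h7 : 2 * (x * y / 2) ≤ x * y := Nat.mul_div_le _ _
  have h8 : 3 * (1 + x * y / 2) ≤ 2 * N := by omega
  have h9 : 3 * (f + f * (x * y / 2)) ≤ 2 * M := by
    calc 3 * (f + f * (x * y / 2)) = f * (3 * (1 + x * y / 2)) := by ring
      _ ≤ f * (2 * N) := Nat.mul_le_mul_left _ h8
      _ = 2 * M := by rw [hN]; ring
  omega

/-- the exponents on the right -/
theorem bdu_expR {M d : ℕ} (hM0 : 0 < M) (hd : d ∣ M) (h1 : d % 2 = 1) (h2 : d ≠ 1) :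
    (M + M / d) / 2 ≤ 2 * M / 3 := by
  obtain ⟨e, he⟩ := hd
  have hd3 : 3 ≤ d := by omega
  have hq : M / d = e := by
    rw [he]
    exact Nat.mul_div_cancel_left e (by omega)
  rw [hq]
  have h3 : 3 * e ≤ M := by
    rw [he]
    exact Nat.mul_le_mul_right _ hd3
  omega

theorem bdu_inner (Q : ℤ) {M : ℕ} (hM : 0 < M) :
    ∑ d ∈ (M / M).divisors, jacobiSym (-1) d * Q ^ (M * ((d - 1) * (M / M / d - 1) / 2)) = 1 := by
  rw [Nat.div_self hM, Nat.divisors_one, sum_singleton, jacobiSym.one_right, Nat.sub_self, zero_mul,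
    Nat.zero_div, mul_zero, pow_zero, one_mul]

theorem bdu_one (κ : ℕ) (p : ℕ → ℕ) (h : IdU κ p 1) : 2 * (p 1 : ℤ) = 2 ^ κ := by
  unfold IdU at h
  have hfil : (Nat.divisors 1).filter (fun f => 1 / f % 4 = 1) = {1} := by
    rw [Nat.divisors_one]
    apply filter_true_of_mem
    intro m hm
    rw [mem_singleton] at hm
    rw [hm]
  have hfil2 : (Nat.divisors 1).filter (fun d => d % 2 = 1) = {1} := by
    rw [Nat.divisors_one]
    apply filter_true_of_mem
    intro m hm
    rw [mem_singleton] at hm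
    rw [hm]
  rw [hfil, sum_singleton, bdu_inner _ one_pos, hfil2, sum_singleton, jacobiSym.one_right,
    if_neg (by omega)] at h
  have e1 : (1 + 1 / 1) / 2 = 1 := by norm_num
  rw [e1, pow_one] at h
  push_cast at h
  linear_combination h

theorem bdu_prime (κ : ℕ) (p : ℕ → ℕ) {M : ℕ} (hP : M.Prime) (h2 : M ≠ 2) (h1 : IdU κ p 1)
    (h : IdU κ p M) : (2 * M : ℤ) * p M = ((2 : ℤ) ^ κ) ^ M +
        jacobiSym (-(2 : ℤ) ^ κ) M * ((2 : ℤ) ^ κ) ^ ((M + 1) / 2) -
        (if M % 4 = 1 then 2 * (2 : ℤ) ^ κ else 0) := by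
  have hodd : Odd M := hP.odd_of_ne_two h2
  have hmod : M % 2 = 1 := Nat.odd_iff.1 hodd
  have hM0 : 0 < M := hP.pos
  have hone := bdu_one κ p h1
  obtain ⟨Q, hQ⟩ : ∃ Q : ℤ, Q = 2 ^ κ := ⟨_, rfl⟩
  have hJ : jacobiSym (-Q ^ M) M = jacobiSym (-Q) M := by
    have e1 : -Q ^ M = (-1) * Q ^ M := by ring
    have e2 : -Q = (-1) * Q := by ring
    rw [e1, e2, jacobiSym.mul_left, jacobiSym.mul_left, jacobiSym.pow_left, bdu_J_pow Q hodd]
  unfold IdU at h
  rw [← hQ] at h hone ⊢
  have hfil2 : (Nat.divisors M).filter (fun d => d % 2 = 1) = {1, M} := by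
    rw [hP.divisors]
    apply filter_true_of_mem
    intro m hm
    rw [mem_insert, mem_singleton] at hm
    rcases hm with hm | hm
    · rw [hm]
    · rw [hm, hmod]
  rw [hfil2, sum_pair hP.ne_one.symm, jacobiSym.one_right, hJ,
    if_neg (fun hc : Odd κ ∧ M % 4 = 2 => by omega), Nat.div_one, Nat.div_self hM0] at h
  have e3 : (M + M) / 2 = M := by omega
  rw [e3, one_mul, sub_zero] at h
  by_cases h4 : M % 4 = 1
  · rw [if_pos h4]
    have hfil : (Nat.divisors M).filter (fun f => M / f % 4 = 1) = {1, M} := by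
      rw [hP.divisors]
      apply filter_true_of_mem
      intro m hm
      rw [mem_insert, mem_singleton] at hm
      rcases hm with hm | hm
      · rw [hm, Nat.div_one]
        exact h4
      · rw [hm, Nat.div_self hM0]
    have hinn : ∑ d ∈ (M / 1).divisors, jacobiSym (-1) d *
        Q ^ (1 * ((d - 1) * (M / 1 / d - 1) / 2)) = 2 := by
      rw [Nat.div_one, hP.divisors, sum_pair hP.ne_one.symm, jacobiSym.one_right,
        jacobiSym.at_neg_one hodd, ZMod.χ₄_nat_one_mod_four h4, Nat.div_self hM0]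
      simp only [Nat.sub_self, zero_mul, mul_zero, Nat.zero_div, pow_zero, mul_one]
      norm_num
    rw [hfil, sum_pair hP.ne_one.symm, bdu_inner Q hM0, hinn] at h
    push_cast at h
    linear_combination h - 2 * hone
  · rw [if_neg h4]
    have hfil : (Nat.divisors M).filter (fun f => M / f % 4 = 1) = {M} := by
      rw [hP.divisors]
      ext m
      rw [mem_filter, mem_insert, mem_singleton]
      constructor
      · rintro ⟨h5 | h5, h6⟩
        · rw [h5, Nat.div_one] at h6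
          exact absurd h6 h4
        · exact h5
      · intro h5
        refine ⟨Or.inr h5, ?_⟩
        rw [h5, Nat.div_self hM0]
    rw [hfil, sum_singleton, bdu_inner Q hM0] at h
    linear_combination h

theorem bdu_bound (κ : ℕ) (p : ℕ → ℕ) (hp : ∀ M, p M ≤ (2 ^ κ) ^ M) {M : ℕ} (hM : 2 ≤ M)
    (h : IdU κ p M) :
    |(2 * M * p M : ℤ) - (2 ^ κ) ^ M| ≤ 2 * (M : ℤ) ^ 3 * (2 ^ κ) ^ (2 * M / 3) := by
  obtain ⟨Q, hQ⟩ : ∃ Q : ℤ, Q = 2 ^ κ := ⟨_, rfl⟩
  have hpQ : ∀ m, (p m : ℤ) ≤ Q ^ m := by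
    intro m
    rw [hQ]
    exact_mod_cast hp m
  unfold IdU at h
  rw [← hQ] at h ⊢
  have hQ1 : 1 ≤ Q := by
    rw [hQ]
    exact one_le_pow₀ (by norm_num)
  have hQ0 : 0 < Q := by linarith
  have hM0 : 0 < M := by omega
  have hMc : (2 : ℤ) ≤ M := by exact_mod_cast hM
  obtain ⟨B, hB⟩ : ∃ B : ℤ, B = Q ^ (2 * M / 3) := ⟨_, rfl⟩
  have hB0 : 0 < B := by
    rw [hB]
    positivity
  rw [← hB]
  -- the right side
  have hm1 : 1 ∈ M.divisors.filter (fun d => d % 2 = 1) :=
    Finset.mem_filter.2 ⟨Nat.one_mem_divisors.2 hM0.ne', rfl⟩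
  have hR1 : |(∑ d ∈ M.divisors with d % 2 = 1, jacobiSym (-Q ^ M) d * Q ^ ((M + M / d) / 2)) -
      Q ^ M| ≤ M * B := by
    rw [← Finset.add_sum_erase _ _ hm1, jacobiSym.one_right, Nat.div_one]
    have e3 : (M + M) / 2 = M := by omega
    rw [e3, one_mul, add_sub_cancel_left]
    refine (Finset.abs_sum_le_sum_abs _ _).trans ?_
    have h1 : ∀ d ∈ (M.divisors.filter (fun d => d % 2 = 1)).erase 1,
        |jacobiSym (-Q ^ M) d * Q ^ ((M + M / d) / 2)| ≤ B := by
      intro d hd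
      rw [Finset.mem_erase, Finset.mem_filter, Nat.mem_divisors] at hd
      refine (bdu_abs_J_mul _ _ (by positivity)).trans ?_
      rw [hB]
      exact pow_le_pow_right₀ hQ1 (bdu_expR hM0 hd.2.1.1 hd.2.2 hd.1)
    refine (Finset.sum_le_card_nsmul _ _ _ h1).trans ?_
    rw [nsmul_eq_mul]
    refine mul_le_mul_of_nonneg_right ?_ hB0.le
    have h2 : ((M.divisors.filter (fun d => d % 2 = 1)).erase 1).card ≤ M :=
      (Finset.card_le_card ((Finset.erase_subset _ _).trans (Finset.filter_subset _ _))).trans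
        (Nat.card_divisors_le_self _)
    exact_mod_cast h2
  have hR2 : |(if Odd κ ∧ M % 4 = 2 then 2 * Q ^ (M / 2) * ∑ c ∈ (M / 2).divisors, jacobiSym (-1) c
      else 0 : ℤ)| ≤ M * B := by
    split_ifs with hc
    · rw [abs_mul, abs_of_nonneg (by positivity : (0 : ℤ) ≤ 2 * Q ^ (M / 2))]
      have h1 : |∑ c ∈ (M / 2).divisors, jacobiSym (-1) c| ≤ ((M / 2 : ℕ) : ℤ) := by
        refine (Finset.abs_sum_le_sum_abs _ _).trans ?_
        refine (Finset.sum_le_card_nsmul _ _ 1 fun c _ => bdu_J_abs _ _).trans ?_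
        rw [nsmul_eq_mul, mul_one]
        exact_mod_cast Nat.card_divisors_le_self _
      have h2 : Q ^ (M / 2) ≤ B := by
        rw [hB]
        exact pow_le_pow_right₀ hQ1 (by omega)
      have h3 : 2 * ((M / 2 : ℕ) : ℤ) ≤ M := by
        have : 2 * (M / 2) ≤ M := Nat.mul_div_le _ _
        exact_mod_cast this
      calc 2 * Q ^ (M / 2) * |∑ c ∈ (M / 2).divisors, jacobiSym (-1) c|
          ≤ 2 * Q ^ (M / 2) * ((M / 2 : ℕ) : ℤ) := mul_le_mul_of_nonneg_left h1 (by positivity)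
        _ = (2 * ((M / 2 : ℕ) : ℤ)) * Q ^ (M / 2) := by ring
        _ ≤ M * B := mul_le_mul h3 h2 (by positivity) (by positivity)
    · rw [abs_zero]
      positivity
  -- the left side
  have hmM : M ∈ M.divisors.filter (fun f => M / f % 4 = 1) :=
    Finset.mem_filter.2 ⟨Nat.mem_divisors_self _ hM0.ne', by rw [Nat.div_self hM0]⟩
  have hL : |(∑ f ∈ M.divisors with M / f % 4 = 1, (2 * f : ℤ) * (p f : ℤ) *
      ∑ d ∈ (M / f).divisors, jacobiSym (-1) d * Q ^ (f * ((d - 1) * (M / f / d - 1) / 2))) -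
      2 * M * p M| ≤ 2 * M ^ 2 * B := by
    rw [← Finset.add_sum_erase _ _ hmM, bdu_inner Q hM0, mul_one, add_sub_cancel_left]
    refine (Finset.abs_sum_le_sum_abs _ _).trans ?_
    have h1 : ∀ f ∈ (M.divisors.filter (fun f => M / f % 4 = 1)).erase M,
        |(2 * f : ℤ) * (p f : ℤ) * ∑ d ∈ (M / f).divisors, jacobiSym (-1) d *
          Q ^ (f * ((d - 1) * (M / f / d - 1) / 2))| ≤ 2 * M * B := by
      intro f hf
      rw [Finset.mem_erase, Finset.mem_filter, Nat.mem_divisors] at hf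
      obtain ⟨hf1, ⟨hf2, -⟩, -⟩ := hf
      rw [abs_mul, abs_of_nonneg (by positivity)]
      have h2 : |∑ d ∈ (M / f).divisors, jacobiSym (-1) d *
          Q ^ (f * ((d - 1) * (M / f / d - 1) / 2))| ≤
          ∑ d ∈ (M / f).divisors, Q ^ (f * ((d - 1) * (M / f / d - 1) / 2)) :=
        (Finset.abs_sum_le_sum_abs _ _).trans
          (Finset.sum_le_sum fun d _ => bdu_abs_J_mul _ _ (by positivity))
      have h3 : (p f : ℤ) * ∑ d ∈ (M / f).divisors,
            Q ^ (f * ((d - 1) * (M / f / d - 1) / 2)) ≤ ((M / f : ℕ) : ℤ) * B := by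
        calc (p f : ℤ) * ∑ d ∈ (M / f).divisors, Q ^ (f * ((d - 1) * (M / f / d - 1) / 2))
            ≤ Q ^ f * ∑ d ∈ (M / f).divisors, Q ^ (f * ((d - 1) * (M / f / d - 1) / 2)) := by
              refine mul_le_mul_of_nonneg_right (hpQ f) (Finset.sum_nonneg fun d _ => ?_)
              positivity
          _ = ∑ d ∈ (M / f).divisors, Q ^ (f + f * ((d - 1) * (M / f / d - 1) / 2)) := by
              rw [Finset.mul_sum]
              exact Finset.sum_congr rfl fun d _ => (pow_add _ _ _).symm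
          _ ≤ ∑ d ∈ (M / f).divisors, B := by
              refine Finset.sum_le_sum fun d hd => ?_
              rw [hB]
              exact pow_le_pow_right₀ hQ1 (bdu_expL hM0 hf2 hf1 (Nat.dvd_of_mem_divisors hd))
          _ = ((M / f).divisors.card : ℤ) * B := by
              rw [Finset.sum_const, nsmul_eq_mul]
          _ ≤ ((M / f : ℕ) : ℤ) * B := by
              refine mul_le_mul_of_nonneg_right ?_ hB0.le
              exact_mod_cast Nat.card_divisors_le_self _
      have h4 : (f : ℤ) * ((M / f : ℕ) : ℤ) = M := by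
        exact_mod_cast Nat.mul_div_cancel' hf2
      calc (2 * f : ℤ) * (p f : ℤ) * |∑ d ∈ (M / f).divisors, jacobiSym (-1) d *
          Q ^ (f * ((d - 1) * (M / f / d - 1) / 2))|
          ≤ (2 * f : ℤ) * (p f : ℤ) * ∑ d ∈ (M / f).divisors,
            Q ^ (f * ((d - 1) * (M / f / d - 1) / 2)) :=
            mul_le_mul_of_nonneg_left h2 (by positivity)
        _ = (2 * f : ℤ) * ((p f : ℤ) * ∑ d ∈ (M / f).divisors,
            Q ^ (f * ((d - 1) * (M / f / d - 1) / 2))) := by ring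
        _ ≤ (2 * f : ℤ) * (((M / f : ℕ) : ℤ) * B) := mul_le_mul_of_nonneg_left h3 (by positivity)
        _ = 2 * (f * ((M / f : ℕ) : ℤ)) * B := by ring
        _ = 2 * M * B := by rw [h4]
    refine (Finset.sum_le_card_nsmul _ _ _ h1).trans ?_
    rw [nsmul_eq_mul]
    have h2 : ((M.divisors.filter (fun f => M / f % 4 = 1)).erase M).card ≤ M :=
      (Finset.card_le_card ((Finset.erase_subset _ _).trans (Finset.filter_subset _ _))).trans
        (Nat.card_divisors_le_self _)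
    have h3 : (((M.divisors.filter (fun f => M / f % 4 = 1)).erase M).card : ℤ) ≤ M := by
      exact_mod_cast h2
    calc _ ≤ (M : ℤ) * (2 * M * B) := mul_le_mul_of_nonneg_right h3 (by positivity)
      _ = _ := by ring
  rw [h] at hL
  have h6 := abs_le.1 hL
  have h7 := abs_le.1 hR1
  have h8 := abs_le.1 hR2
  have h9 : 2 * (M : ℤ) ^ 2 * B + 2 * (M * B) ≤ 2 * (M : ℤ) ^ 3 * B := by
    have h10 : 0 ≤ 2 * ((M : ℤ) * B) * (M * (M - 1) - 1) := by
      refine mul_nonneg (by positivity) ?_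
      nlinarith
    have h11 : 2 * (M : ℤ) ^ 3 * B - (2 * (M : ℤ) ^ 2 * B + 2 * (M * B)) =
        2 * ((M : ℤ) * B) * (M * (M - 1) - 1) := by ring
    linarith
  rw [abs_le]
  constructor
  · linarith [h6.1, h6.2, h7.1, h7.2, h8.1, h8.2]
  · linarith [h6.1, h6.2, h7.1, h7.2, h8.1, h8.2]

theorem t_bdu : S_bdu := by
  intro κ p _ hp h M hM
  refine ⟨?_, fun hP h2 => bdu_prime κ p hP h2 (h 1 le_rfl) (h M hM)⟩
  rcases Nat.lt_or_ge 1 M with h1 | h1
  · have h3 := bdu_bound κ p hp (M := M) (by omega) (h M hM)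
    exact_mod_cast h3
  · obtain rfl : M = 1 := by omega
    have h3 := bdu_one κ p (h 1 le_rfl)
    have h4 : 2 * (p 1 : ℝ) = 2 ^ κ := by exact_mod_cast h3
    have h5 : (2 * ((1 : ℕ) : ℝ) * p 1 : ℝ) - ((2 : ℝ) ^ κ) ^ 1 = 0 := by
      push_cast
      linear_combination h4
    rw [h5, abs_zero]
    positivity

end Pool.Agent.H118.EX
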