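import Pool.Agent.H525.EX.Stm5

/-! EX/GA2 (for helper525): the reflection equations for the global arrays, second family. -/

set_option autoImplicit false

namespace Pool.Agent.H118.EX

open Polynomial UniqueFactorizationMonoid
open Pool.Agent.H985.Chow (mob)
open Pool.Agent.H525.QF Pool.Agent.H525.EX
open scoped Classical

variable {K : Type} [Field K] [Fintype K]

omit [Fintype K] in
theorem quad_monic : (X ^ 2 + X : K[X]).Monic ∧ (X ^ 2 + X : K[X]).natDegree = 2 := by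
  have h1 : (X : K[X]).degree < ((2 : ℕ) : WithBot ℕ) := by
    rw [degree_X]
    exact_mod_cast (by norm_num : (1 : ℕ) < 2)
  exact ⟨monic_X_pow_add h1, by compute_degree!⟩

theorem F2_cII (m : ℕ) (v : K[X] × K[X]) (hx : v.1 ∈ mon K m) (hy : v.2 ∈ lt K m) :
    (F2 v).Monic ∧ (F2 v).natDegree = 4 * m := by
  rw [mem_mon] at hx
  rw [mem_lt] at hy
  obtain ⟨hm, hd⟩ := hx
  obtain ⟨hqm, hqd⟩ := quad_monic (K := K)
  have h4 : (v.1 ^ 4).Monic := hm.pow 4
  have hd4 : (v.1 ^ 4).natDegree = 4 * m := by rw [hm.natDegree_pow, hd]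
  have hlt : ((X ^ 2 + X) * v.2 ^ 4).degree < (v.1 ^ 4).degree := by
    rw [degree_eq_natDegree h4.ne_zero, hd4]
    by_cases h0 : v.2 = 0
    · rw [h0, zero_pow (by norm_num), mul_zero, degree_zero]
      exact WithBot.bot_lt_coe _
    · rw [degree_eq_natDegree h0] at hy
      have hy' : v.2.natDegree < m := by exact_mod_cast hy
      have h1 : ((X ^ 2 + X) * v.2 ^ 4) ≠ 0 := mul_ne_zero hqm.ne_zero (pow_ne_zero 4 h0)
      rw [degree_eq_natDegree h1, natDegree_mul hqm.ne_zero (pow_ne_zero 4 h0), hqd,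
        natDegree_pow]
      have : 2 + 4 * v.2.natDegree < 4 * m := by omega
      exact_mod_cast this
  unfold F2
  refine ⟨h4.add_of_left hlt, ?_⟩
  rw [natDegree_add_eq_left_of_degree_lt hlt, hd4]

theorem F2_cI (m : ℕ) (v : K[X] × K[X]) (hx : v.1 ∈ lt K (m + 1)) (hy : v.2 ∈ mon K m) :
    (F2 v).Monic ∧ (F2 v).natDegree = 4 * m + 2 := by
  rw [mem_mon] at hy
  rw [mem_lt] at hx
  obtain ⟨hm, hd⟩ := hy
  obtain ⟨hqm, hqd⟩ := quad_monic (K := K)
  have h4 : ((X ^ 2 + X) * v.2 ^ 4).Monic := hqm.mul (hm.pow 4)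
  have hd4 : ((X ^ 2 + X) * v.2 ^ 4).natDegree = 4 * m + 2 := by
    rw [natDegree_mul hqm.ne_zero (pow_ne_zero 4 hm.ne_zero), hqd, hm.natDegree_pow, hd]
    ring
  have hlt : (v.1 ^ 4).degree < ((X ^ 2 + X) * v.2 ^ 4).degree := by
    rw [degree_eq_natDegree h4.ne_zero, hd4]
    by_cases h0 : v.1 = 0
    · rw [h0, zero_pow (by norm_num), degree_zero]
      exact WithBot.bot_lt_coe _
    · rw [degree_eq_natDegree h0] at hx
      have hx' : v.1.natDegree < m + 1 := by exact_mod_cast hx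
      rw [degree_eq_natDegree (pow_ne_zero 4 h0), natDegree_pow]
      have : 4 * v.1.natDegree < 4 * m + 2 := by omega
      exact_mod_cast this
  unfold F2
  refine ⟨h4.add_of_right hlt, ?_⟩
  rw [natDegree_add_eq_right_of_degree_lt hlt, hd4]

theorem W_refl (href : S_ref) (η : ℝ) (h : K[X] → ℕ → ℝ[X]) (hR : HypR η h) (G F₀ : K[X])
    (hG : G.Monic) (hF : F₀.Monic) (hsq : Squarefree F₀) (M : ℕ)
    (hM : 4 * G.natDegree + F₀.natDegree = M) (k : ℕ) :
    (k ≤ M → (W h (G ^ 2 * F₀)).coeff (M - k) =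
      ((mob F₀ : ℝ) * η ^ G.natDegree) * (W h (G ^ 2 * F₀)).coeff k) ∧
    (M < k → (W h (G ^ 2 * F₀)).coeff k = 0) := by
  obtain ⟨h1, h2⟩ := href K η h hR G F₀ hG hF hsq
  rw [hM] at h1 h2
  constructor
  · intro hk
    have h3 := congrArg (fun f : ℝ[X] => f.coeff k) h2
    simp only [coeff_reflect, coeff_C_mul] at h3
    rw [revAt_le hk] at h3
    exact h3
  · intro hk
    exact coeff_eq_zero_of_natDegree_lt (lt_of_le_of_lt h1 hk)

theorem pow_split (κ N j : ℕ) (hj : j ≤ N) :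
    ((-1 : ℝ) ^ (κ * (N - j))) * ((-1 : ℝ) ^ κ) ^ j = ((-1 : ℝ) ^ κ) ^ N := by
  rw [pow_mul, ← pow_add, Nat.sub_add_cancel hj]

theorem G0_refl (href : S_ref) (hpar : S_par2) [CharP K 2] (κ : ℕ) (hκ : Fintype.card K = 2 ^ κ)
    (h : K[X] → ℕ → ℝ[X]) (hR : HypR ((-1) ^ κ) h) (N k : ℕ) :
    (k ≤ 4 * N → G0 (fun _ => 1) h N (4 * N - k) =
      ((-1 : ℝ) ^ κ) ^ N * G0 (fun c => (psi c : ℝ)) h N k) ∧
    (4 * N < k → ∀ ω : K → ℝ, G0 ω h N k = 0) := by
  have key : ∀ j ∈ Finset.range (N + 1), ∀ G ∈ mon K j, ∀ v ∈ cII K (N - j),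
      (k ≤ 4 * N → (W h (G ^ 2 * F2 v)).coeff (4 * N - k) =
        ((-1 : ℝ) ^ κ) ^ N * ((psi (v.2.coeff (N - j - 1)) : ℝ) * (W h (G ^ 2 * F2 v)).coeff k)) ∧
      (4 * N < k → (W h (G ^ 2 * F2 v)).coeff k = 0) := by
    intro j hj G hG v hv
    rw [Finset.mem_range] at hj
    rw [mem_mon] at hG
    unfold cII at hv
    rw [Finset.mem_filter, Finset.mem_product] at hv
    obtain ⟨⟨hv1, hv2⟩, hcop⟩ := hv
    obtain ⟨hF, hFd⟩ := F2_cII (N - j) v hv1 hv2
    obtain ⟨hsq, hmob⟩ := (hpar K κ hκ (N - j) v hcop).2 hv1 hv2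
    have := W_refl href ((-1) ^ κ) h hR G (F2 v) hG.1 hF hsq (4 * N)
      (by rw [hG.2, hFd]; omega) k
    refine ⟨fun hk => ?_, this.2⟩
    rw [this.1 hk, hmob, hG.2]
    push_cast
    rw [← pow_split κ N j (by omega)]
    ring
  unfold G0
  constructor
  · intro hk
    rw [Finset.mul_sum]
    refine Finset.sum_congr rfl fun j hj => ?_
    rw [Finset.mul_sum]
    refine Finset.sum_congr rfl fun G hG => ?_
    rw [Finset.mul_sum]
    refine Finset.sum_congr rfl fun v hv => ?_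
    rw [one_mul]
    exact (key j hj G hG v hv).1 hk
  · intro hk ω
    refine Finset.sum_eq_zero fun j hj => Finset.sum_eq_zero fun G hG =>
      Finset.sum_eq_zero fun v hv => ?_
    rw [(key j hj G hG v hv).2 hk, mul_zero]

theorem G1_refl (href : S_ref) (hpar : S_par2) [CharP K 2] (κ : ℕ) (hκ : Fintype.card K = 2 ^ κ)
    (h : K[X] → ℕ → ℝ[X]) (hR : HypR ((-1) ^ κ) h) (N k : ℕ) :
    (k ≤ 4 * N + 2 → G1 (fun _ => 1) h N (4 * N + 2 - k) =
      ((-1 : ℝ) ^ κ) ^ N * G1 (fun c => (psi c : ℝ)) h N k) ∧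
    (4 * N + 2 < k → ∀ ω : K → ℝ, G1 ω h N k = 0) := by
  have key : ∀ j ∈ Finset.range (N + 1), ∀ G ∈ mon K j, ∀ v ∈ cI K (N - j),
      (k ≤ 4 * N + 2 → (W h (G ^ 2 * F2 v)).coeff (4 * N + 2 - k) =
        ((-1 : ℝ) ^ κ) ^ N * ((psi (v.1.coeff (N - j)) : ℝ) * (W h (G ^ 2 * F2 v)).coeff k)) ∧
      (4 * N + 2 < k → (W h (G ^ 2 * F2 v)).coeff k = 0) := by
    intro j hj G hG v hv
    rw [Finset.mem_range] at hj
    rw [mem_mon] at hG
    unfold cI at hv
    rw [Finset.mem_filter, Finset.mem_product] at hv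
    obtain ⟨⟨hv1, hv2⟩, hcop⟩ := hv
    obtain ⟨hF, hFd⟩ := F2_cI (N - j) v hv1 hv2
    obtain ⟨hsq, hmob⟩ := (hpar K κ hκ (N - j) v hcop).1 hv1 hv2
    have := W_refl href ((-1) ^ κ) h hR G (F2 v) hG.1 hF hsq (4 * N + 2)
      (by rw [hG.2, hFd]; omega) k
    refine ⟨fun hk => ?_, this.2⟩
    rw [this.1 hk, hmob, hG.2]
    push_cast
    rw [← pow_split κ N j (by omega)]
    ring
  unfold G1
  constructor
  · intro hk
    rw [Finset.mul_sum]
    refine Finset.sum_congr rfl fun j hj => ?_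
    rw [Finset.mul_sum]
    refine Finset.sum_congr rfl fun G hG => ?_
    rw [Finset.mul_sum]
    refine Finset.sum_congr rfl fun v hv => ?_
    rw [one_mul]
    exact (key j hj G hG v hv).1 hk
  · intro hk ω
    refine Finset.sum_eq_zero fun j hj => Finset.sum_eq_zero fun G hG =>
      Finset.sum_eq_zero fun v hv => ?_
    rw [(key j hj G hG v hv).2 hk, mul_zero]

theorem t_ga2 : S_ga2 := by
  intro href hpar K _ _ _ κ hκ h hR
  constructor
  · intro n e
    unfold g0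
    by_cases hn : 0 ≤ n
    · obtain ⟨N, rfl⟩ : ∃ N : ℕ, n = N := ⟨n.toNat, (Int.toNat_of_nonneg hn).symm⟩
      rw [Int.toNat_natCast, zpow_natCast]
      by_cases h1 : 0 ≤ (N : ℤ) + e
      · by_cases h2 : 0 ≤ (N : ℤ) + (2 * N - e)
        · rw [if_pos ⟨hn, h2⟩, if_pos ⟨hn, h1⟩]
          have h3 := (G0_refl href hpar κ hκ h hR N ((N : ℤ) + e).toNat).1 (by omega)
          have h4 : ((N : ℤ) + (2 * N - e)).toNat = 4 * N - ((N : ℤ) + e).toNat := by omega
          rw [h4, h3]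
          ring
        · rw [if_neg (fun h => h2 h.2), if_pos ⟨hn, h1⟩]
          have h3 := (G0_refl href hpar κ hκ h hR N ((N : ℤ) + e).toNat).2 (by omega)
          rw [h3, mul_zero, mul_zero]
      · by_cases h2 : 0 ≤ (N : ℤ) + (2 * N - e)
        · rw [if_pos ⟨hn, h2⟩, if_neg (fun h => h1 h.2), mul_zero]
          have h3 := (G0_refl href hpar κ hκ h hR N ((N : ℤ) + (2 * N - e)).toNat).2 (by omega)
          rw [h3, mul_zero]
        · rw [if_neg (fun h => h2 h.2), if_neg (fun h => h1 h.2), mul_zero]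
    · rw [if_neg (fun h => hn h.1), if_neg (fun h => hn h.1), mul_zero]
  · intro n e
    unfold g1
    by_cases hn : 0 ≤ n
    · obtain ⟨N, rfl⟩ : ∃ N : ℕ, n = N := ⟨n.toNat, (Int.toNat_of_nonneg hn).symm⟩
      rw [Int.toNat_natCast, zpow_natCast]
      by_cases h1 : 0 ≤ (N : ℤ) + e
      · by_cases h2 : 0 ≤ (N : ℤ) + (2 * N + 2 - e)
        · rw [if_pos ⟨hn, h2⟩, if_pos ⟨hn, h1⟩]
          have h3 := (G1_refl href hpar κ hκ h hR N ((N : ℤ) + e).toNat).1 (by omega)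
          have h4 : ((N : ℤ) + (2 * N + 2 - e)).toNat = 4 * N + 2 - ((N : ℤ) + e).toNat := by omega
          rw [h4, h3]
          ring
        · rw [if_neg (fun h => h2 h.2), if_pos ⟨hn, h1⟩]
          have h3 := (G1_refl href hpar κ hκ h hR N ((N : ℤ) + e).toNat).2 (by omega)
          rw [h3, mul_zero, mul_zero]
      · by_cases h2 : 0 ≤ (N : ℤ) + (2 * N + 2 - e)
        · rw [if_pos ⟨hn, h2⟩, if_neg (fun h => h1 h.2), mul_zero]
          have h3 := (G1_refl href hpar κ hκ h hR N ((N : ℤ) + (2 * N + 2 - e)).toNat).2 (by omega)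
          rw [h3, mul_zero]
        · rw [if_neg (fun h => h2 h.2), if_neg (fun h => h1 h.2), mul_zero]
    · rw [if_neg (fun h => hn h.1), if_neg (fun h => hn h.1), mul_zero]

end Pool.Agent.H118.EX
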